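import Pool.Agent.Q161.SemiBaxter2

/-!
# Weak ascent sequences avoiding `210` and permutations avoiding `2-41-3`

Both families are generated by the tree `(h,k) ↦ (h+1-j, k+j)_{1 ≤ j ≤ h}, (h+1, j)_{1 ≤ j ≤ k}` with
root `(1,1)`, by appending a last entry.
-/

set_option autoImplicit false

namespace Pool.Agent.Results.MP_5aad23_co.WeakAscent210

/-- `wasc a i`: the number of weak ascents of the sequence of the first `i` entries of `a` (positions
are counted from `0`): the number of `j` with `j + 1 < i` and `a j ≤ a (j+1)`. -/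
noncomputable def wasc {n : ℕ} (a : Fin n → ℕ) (i : ℕ) : ℕ :=
  Nat.card {j : ℕ // j + 1 < i ∧ ∃ h : j + 1 < n, a ⟨j, by omega⟩ ≤ a ⟨j + 1, h⟩}

/-- weak ascent sequences: `a_1 = 0` and `a_i ≤ 1 + wasc(a_1, …, a_{i-1})` for `i ≥ 2` -/
def IsWeakAscentSeq {n : ℕ} (a : Fin n → ℕ) : Prop :=
  ∀ i : Fin n, ((i : ℕ) = 0 → a i = 0) ∧ (1 ≤ (i : ℕ) → a i ≤ 1 + wasc a i)

/-- avoiding the pattern `210` -/
def Avoids210 {n : ℕ} (a : Fin n → ℕ) : Prop :=
  ¬ ∃ i j k : Fin n, i < j ∧ j < k ∧ a j < a i ∧ a k < a j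

/-- containing the vincular pattern `2-41-3`: there are positions `i < j` and `k > j + 1` with
`π(j+1) < π(i) < π(k) < π(j)` -/
def Contains2413 {n : ℕ} (π : Equiv.Perm (Fin n)) : Prop :=
  ∃ i j j' k : Fin n, i < j ∧ (j' : ℕ) = (j : ℕ) + 1 ∧ j' < k ∧
    π j' < π i ∧ π i < π k ∧ π k < π j

theorem wasc_eq {n : ℕ} (a : Fin n → ℕ) (i : ℕ) : wasc a i = Q161.SemiBaxter.wasc a i := by
  classical
  unfold wasc Q161.SemiBaxter.wasc
  rw [← Nat.card_eq_finsetCard]
  apply Nat.card_congr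
  apply Equiv.subtypeEquivRight
  intro j
  simp only [Finset.mem_filter, Finset.mem_range]
  constructor
  · rintro ⟨h1, h2⟩; exact ⟨by omega, h2⟩
  · rintro ⟨h1, h2⟩; exact ⟨by omega, h2⟩

theorem seq_iff {n : ℕ} (a : Fin n → ℕ) : (IsWeakAscentSeq a ∧ Avoids210 a) ↔
    (Q161.SemiBaxter.WAS a ∧ Q161.SemiBaxter.A210 a) := by
  constructor
  · rintro ⟨h1, h2⟩
    refine ⟨fun i => ?_, ?_⟩
    · split_ifs with h
      · rw [(h1 i).1 h]
      · rw [← wasc_eq]; exact (h1 i).2 (by omega)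
    · rintro i j k hij hjk ⟨h3, h4⟩
      exact h2 ⟨i, j, k, hij, hjk, h3, h4⟩
  · rintro ⟨h1, h2⟩
    refine ⟨fun i => ⟨fun h => ?_, fun h => ?_⟩, ?_⟩
    · have := h1 i
      rw [if_pos h] at this
      omega
    · have := h1 i
      rw [if_neg (by omega), ← wasc_eq] at this
      exact this
    · rintro ⟨i, j, k, hij, hjk, h3, h4⟩
      exact h2 i j k hij hjk ⟨h3, h4⟩

theorem perm_iff {n : ℕ} (π : Equiv.Perm (Fin n)) :
    ¬ Contains2413 π ↔ Q161.SemiBaxter.V2413 π := by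
  constructor
  · rintro h a b d ha hb hd ⟨h1, h2, h3⟩
    exact h ⟨⟨a, by omega⟩, ⟨b, by omega⟩, ⟨b + 1, by omega⟩, ⟨d, hd⟩, ha, rfl, hb, h1, h2, h3⟩
  · rintro h ⟨i, j, j', k, h1, h2, h3, h4, h5, h6⟩
    rw [Fin.lt_def] at h1 h3
    have hj : (j : ℕ) + 1 < n := by have := k.2; omega
    have e : j' = ⟨j + 1, hj⟩ := Fin.ext h2
    rw [e] at h3 h4
    exact h i j k h1 h3 k.2 ⟨h4, h5, h6⟩

/-- For every `n ≥ 1`, the number of weak ascent sequences of length `n` avoiding `210` equals the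
number of permutations of length `n` avoiding the vincular pattern `2-41-3`. -/
theorem result : ∀ n : ℕ, 1 ≤ n →
    Nat.card {a : Fin n → ℕ // IsWeakAscentSeq a ∧ Avoids210 a} =
      Nat.card {π : Equiv.Perm (Fin n) // ¬ Contains2413 π} := by
  intro n hn
  obtain ⟨m, rfl⟩ : ∃ m, n = m + 1 := ⟨n - 1, by omega⟩
  rw [Nat.card_congr (Equiv.subtypeEquivRight (fun a => seq_iff a)),
    Nat.card_congr (Equiv.subtypeEquivRight (fun π => perm_iff π)),
    Q161.SemiBaxter.card_was, Q161.SemiBaxter.card_v2413]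

end Pool.Agent.Results.MP_5aad23_co.WeakAscent210
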